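import Pool.Agent.V7H89.GL.Lind

/-!
# Local forms of the laws for the heat flow
-/

set_option autoImplicit false

open Complex Set MeasureTheory Filter Topology
open scoped ComplexConjugate

namespace Pool.Agent.V7H89.CH

open Pool.Agent.W169.HF H353.E H353.F Pool.Agent.V7H89.GL

variable {m : ℕ}

lemma phi_le {x r : ℝ} (hx : 0 < x) (hr : 0 ≤ r) : phi x r ≤ x / 2 := by
  unfold phi
  rw [div_le_div_iff₀ (by positivity) (by norm_num)]
  have h3 : max (x - r) 0 ≤ x := max_le (by linarith) hx.le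
  have h4 : 0 ≤ max (x - r) 0 := le_max_right _ _
  have h5 : max (x - r) 0 ^ 2 ≤ x ^ 2 := pow_le_pow_left₀ h4 h3 2
  linarith

/-- few zeros near one height give the bound at this height -/
theorem loc_size (hm : 1 ≤ m) {θ : ℝ} (hθ0 : 0 ≤ θ) (hθ : θ < 1 / 2) {x κ : ℝ} (hx : 0 < x) (hκ : 0 < κ) :
    ∃ c0 R Q0 : ℝ, 0 < c0 ∧ 0 < R ∧ 1 < Q0 ∧
      ∀ (N : ℝ) (μ : Fin m → ℂ) (α : Fin m → ℕ → ℂ) (ε : ℂ) (Λ : ℂ → ℂ),
      Dat θ N μ α ε Λ → ∀ y : ℝ, Q0 ≤ cq N μ y →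
        Cnt (heat (x / Real.log (cq N μ y)) (XX N Λ)) {s : ℂ | 1 / 2 + c0 ≤ s.re ∧ |s.im - y| ≤ R}
          (c0 * Real.log (cq N μ y)) →
        ∀ r : ℝ, 0 ≤ r → r ≤ 1 → ‖LL N μ Λ (1 / 2 + y * I + r)‖ ≤ cq N μ y ^ (phi x r / 2 + κ) := by
  have hm' : (1 : ℝ) ≤ m := by exact_mod_cast hm
  obtain ⟨K, hK, HB⟩ := base hm hθ0 hθ
  obtain ⟨κ1, R, ℓ0, hκ1, hR, HS⟩ := size_of_few K (1 + θ) (x / 2) (x + 1) κ hK (by linarith) (by linarith)
    (by positivity) (by linarith) hκ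
  obtain ⟨c, hc⟩ : ∃ c : ℝ, c = 15 * (m : ℝ) := ⟨_, rfl⟩
  have hc0 : 0 < c := by rw [hc]; positivity
  obtain ⟨L0, hL0⟩ : ∃ L0 : ℝ, L0 = max (max (2 * |ℓ0| + c) (2 * c)) (max (max (2 * x * c) 1)
    (2 * (c * x + x * c + κ * c + 4 * K) / κ)) := ⟨_, rfl⟩
  have hL01 : 1 ≤ L0 := by
    rw [hL0]
    exact (le_max_right _ _).trans ((le_max_left _ _).trans (le_max_right _ _))
  refine ⟨κ1 / 4, R, Real.exp L0, by positivity, by linarith, Real.one_lt_exp_iff.2 (by linarith), ?_⟩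
  intro N μ α ε Λ D y hy hcnt r hr0 hr1
  have hφ := phi_nonneg (r := r) hx
  have hφx := phi_le (r := r) hx hr0
  have hN := D.d.one_le
  obtain ⟨hCl, hne, HU⟩ := HB N μ α ε Λ D
  obtain ⟨hud, hgam, hl1, hl2, hc1, hfne⟩ := HU y
  obtain ⟨ℓ, hℓd⟩ : ∃ ℓ : ℝ, ℓ = el N μ y := ⟨_, rfl⟩
  rw [← hℓd] at hud hgam hl1 hl2
  have hG := hud.hG
  obtain ⟨L, hL⟩ : ∃ L : ℝ, L = Real.log (cq N μ y) := ⟨_, rfl⟩
  have hcnd0 : 0 < cq N μ y := by linarith
  have hLL : L0 ≤ L := by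
    have := Real.log_le_log (Real.exp_pos _) hy
    rwa [Real.log_exp, ← hL] at this
  have hpow : cq N μ y ^ (phi x r / 2 + κ) = Real.exp (L * (phi x r / 2 + κ)) := by
    rw [Real.rpow_def_of_pos hcnd0, ← hL]
  rw [hpow]
  rw [← hL, ← hc] at hl1 hl2
  have hrn : ‖(r : ℂ)‖ ^ 2 ≤ 1 := by
    rw [Complex.norm_real, Real.norm_eq_abs, sq_abs]
    nlinarith
  have hrre : ((r : ℂ)).re = r := Complex.ofReal_re r
  have hKr : K * (1 + ‖(r : ℂ)‖ ^ 2) ≤ 2 * K := by nlinarith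
  obtain ⟨hg1, -⟩ := hgam r (by rw [hrre]; exact hr0)
  have hL1 : 2 * |ℓ0| + c ≤ L := ((le_max_left _ _).trans (le_max_left _ _)).trans (hL0 ▸ hLL)
  have hL2 : 2 * c ≤ L := ((le_max_right _ _).trans (le_max_left _ _)).trans (hL0 ▸ hLL)
  have hL3 : 2 * x * c ≤ L := ((le_max_left _ _).trans ((le_max_left _ _).trans (le_max_right _ _))).trans
    (hL0 ▸ hLL)
  have hL4 : 2 * (c * x + x * c + κ * c + 4 * K) / κ ≤ L :=
    ((le_max_right _ _).trans (le_max_right _ _)).trans (hL0 ▸ hLL)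
  rw [div_le_iff₀ hκ] at hL4
  have hLpos : 0 < L := by linarith
  have hℓ : ℓ0 ≤ ℓ := by linarith [le_abs_self ℓ0]
  have hℓpos : 0 < ℓ := by linarith
  obtain ⟨ht1, ht2⟩ := time_cmp hx hLpos hl1 hl2
  have hxc : x * c / L ≤ x / 2 := by
    rw [div_le_iff₀ hLpos]
    nlinarith
  have hxc1 : x * c / L ≤ 1 := by
    rw [div_le_iff₀ hLpos]
    linarith
  rw [← hL] at hcnt
  have hcnt2 : Cnt (heat (x / L) (ff N Λ y)) {z : ℂ | κ1 ≤ z.re ∧ z.re ≤ R ∧ |z.im| ≤ R} (κ1 * ℓ) := by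
    rw [heat_ff]
    refine cnt_mono (cnt_shift hcnt (B := {z : ℂ | κ1 ≤ z.re ∧ z.re ≤ R ∧ |z.im| ≤ R}) ?_)
      (fun _ h => h) ?_
    · rintro u ⟨h1, h2, h3⟩ -
      refine ⟨by simp; linarith, ?_⟩
      have e : (1 / 2 + (y : ℂ) * I + u).im - y = u.im := by simp
      rw [e]
      exact h3
    · have : κ1 / 4 * L = κ1 * (L / 4) := by ring
      rw [this]
      exact mul_le_mul_of_nonneg_left (by linarith) hκ1.le
  have hsz := HS ℓ (GG θ N μ y) (x / L) (ff N Λ y) hℓ hud (by positivity) (by linarith) (by linarith)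
    hcnt2 r hr0 hr1
  have hLLn := LL_norm hG hg1 hsz
  refine hLLn.trans (Real.exp_le_exp.2 ?_)
  rw [hrre, phx_eq]
  have hτ : 0 < 2 * (x / L) * ℓ := by positivity
  have hlip := phi_lip hx hτ hr0
  have habs : |2 * (x / L) * ℓ - x| ≤ x * c / L := abs_le.2 ⟨by linarith, by linarith⟩
  have h1 : ℓ * phi (2 * (x / L) * ℓ) r ≤ ℓ * (phi x r + x * c / L / 2) :=
    mul_le_mul_of_nonneg_left (by linarith) hℓpos.le
  have h2 : ℓ * (x * c / L) ≤ x * c := by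
    have h3 : ℓ ≤ L := by linarith
    calc ℓ * (x * c / L) ≤ L * (x * c / L) := mul_le_mul_of_nonneg_right h3 (by positivity)
      _ = x * c := by field_simp
  have h3 : ℓ * phi x r ≤ (L + c) / 2 * phi x r := mul_le_mul_of_nonneg_right (by linarith) hφ
  have h4 : κ * ℓ ≤ κ * ((L + c) / 2) := mul_le_mul_of_nonneg_left (by linarith) hκ.le
  have h5 : c * phi x r ≤ c * (x / 2) := mul_le_mul_of_nonneg_left hφx hc0.le
  have h6 : 0 ≤ κ * c := by positivity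
  have h8 : 0 ≤ x * c := by positivity
  generalize phi (2 * (x / L) * ℓ) r = P at h1 hlip ⊢
  have h9 : ℓ * (phi x r + x * c / L / 2) = ℓ * phi x r + ℓ * (x * c / L) / 2 := by ring
  rw [h9] at h1
  have h10 : ℓ * (r + P) + κ * ℓ - ℓ * r = ℓ * P + κ * ℓ := by ring
  rw [h10]
  nlinarith

/-- the bound near one height gives few zeros near this height -/
theorem loc_few (hm : 1 ≤ m) {θ : ℝ} (hθ0 : 0 ≤ θ) (hθ : θ < 1 / 2) {x η ε R : ℝ} (hx : 0 < x)
    (hη : 0 < η) (hε : 0 < ε) (hR : 0 < R) :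
    ∃ κ2 R2 Q0 : ℝ, 0 < κ2 ∧ 0 < R2 ∧ 1 < Q0 ∧
      ∀ (N : ℝ) (μ : Fin m → ℂ) (α : Fin m → ℕ → ℂ) (w : ℂ) (Λ : ℂ → ℂ),
      Dat θ N μ α w Λ → ∀ T : ℝ, Q0 ≤ cq N μ T →
      (∀ r : ℝ, 0 < r → r ≤ 1 / 2 → ∀ y : ℝ, |y - T| ≤ R2 →
        ‖LL N μ Λ (1 / 2 + y * I + r)‖ ≤ cq N μ y ^ (phi x r / 2 + κ2)) →
        Cnt (heat (x / Real.log (cq N μ T)) (XX N Λ)) {s : ℂ | 1 / 2 + η ≤ s.re ∧ |s.im - T| ≤ R}
          (ε * Real.log (cq N μ T)) := by
  have hm' : (1 : ℝ) ≤ m := by exact_mod_cast hm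
  obtain ⟨K, hK, HB⟩ := base hm hθ0 hθ
  obtain ⟨κ, R', ℓa, hκ, hR', HS⟩ := few_of_size K (1 + θ) x (x + 1) (max R 1) (min η 1) ε hK
    (by linarith) (by linarith) hx (by linarith) (by linarith) (le_max_right _ _) (lt_min hη one_pos)
    (min_le_right _ _) hε
  obtain ⟨M, κ1, R1, ℓb, hM, hκ1, hR1, HN⟩ := net_all K (1 + θ) x κ R' hK (by linarith) (by linarith) hx hκ hR'
  have hM' : (1 : ℝ) ≤ M := by exact_mod_cast hM
  obtain ⟨R4, ℓc, hR4, HP⟩ := prof_all K (1 + θ) (1 / 2) (1 / (2 * M)) κ1 R1 hK (by linarith)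
    (by linarith) (by norm_num) (by linarith) (by positivity) (by
      rw [div_le_iff₀ (by positivity)]
      linarith) hκ1 hR1
  obtain ⟨κ', hκ'd⟩ : ∃ κ' : ℝ, κ' = κ1 / 4 := ⟨_, rfl⟩
  have hκ' : 0 < κ' := by rw [hκ'd]; positivity
  obtain ⟨c, hc⟩ : ∃ c : ℝ, c = 15 * (m : ℝ) := ⟨_, rfl⟩
  have hc0 : 0 < c := by rw [hc]; positivity
  -- the constant in the lines
  obtain ⟨E1, hE1⟩ : ∃ E1 : ℝ, E1 = ((x / 2 + κ') * (c + m * |R1|) + K * (2 + R1 ^ 2)) /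
    (κ1 / 2) := ⟨_, rfl⟩
  obtain ⟨ℓ0, hℓ0⟩ : ∃ ℓ0 : ℝ, ℓ0 = max (max ℓa ℓb) (max ℓc (max E1 1)) := ⟨_, rfl⟩
  refine ⟨κ', R1, Real.exp (max (max (2 * ℓ0 + c) (x * c / κ)) (max (x * c) (max c 1))), hκ', by linarith, ?_, ?_⟩
  · apply Real.one_lt_exp_iff.2
    have := (le_max_right c 1).trans ((le_max_right (x * c) _).trans
      (le_max_right (max (2 * ℓ0 + c) (x * c / κ)) _))
    linarith
  intro N μ α w Λ D T hT hbd
  have hN := D.d.one_le
  obtain ⟨hCl, hne, HU⟩ := HB N μ α w Λ D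
  obtain ⟨hud, hgam, hl1, hl2, hc1, hfne⟩ := HU T
  obtain ⟨ℓ, hℓd⟩ : ∃ ℓ : ℝ, ℓ = el N μ T := ⟨_, rfl⟩
  rw [← hℓd] at hud hgam hl1 hl2
  have hG := hud.hG
  obtain ⟨L, hL⟩ : ∃ L : ℝ, L = Real.log (cq N μ T) := ⟨_, rfl⟩
  have hcnd0 : 0 < cq N μ T := by linarith
  have hLge : max (max (2 * ℓ0 + c) (x * c / κ)) (max (x * c) (max c 1)) ≤ L := by
    have := Real.log_le_log (Real.exp_pos _) hT
    rwa [Real.log_exp, ← hL] at this
  have hLa : 2 * ℓ0 + c ≤ L := ((le_max_left _ _).trans (le_max_left _ _)).trans hLge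
  have hLb : x * c / κ ≤ L := ((le_max_right _ _).trans (le_max_left _ _)).trans hLge
  have hLc : x * c ≤ L := ((le_max_left _ _).trans (le_max_right _ _)).trans hLge
  have hLd : c ≤ L := ((le_max_left _ _).trans ((le_max_right _ _).trans (le_max_right _ _))).trans hLge
  have hL0 : 0 < L := by linarith
  rw [← hL]
  rw [← hL, ← hc] at hl1 hl2
  have hℓ : ℓ0 ≤ ℓ := by linarith
  have hℓa : ℓa ≤ ℓ := ((le_max_left _ _).trans (le_max_left _ _)).trans (hℓ0 ▸ hℓ)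
  have hℓb : ℓb ≤ ℓ := ((le_max_right _ _).trans (le_max_left _ _)).trans (hℓ0 ▸ hℓ)
  have hℓc : ℓc ≤ ℓ := ((le_max_left _ _).trans (le_max_right _ _)).trans (hℓ0 ▸ hℓ)
  have hℓE : E1 ≤ ℓ := ((le_max_left _ _).trans ((le_max_right _ _).trans (le_max_right _ _))).trans
    (hℓ0 ▸ hℓ)
  have hℓ1 : 1 ≤ ℓ := ((le_max_right _ _).trans ((le_max_right _ _).trans (le_max_right _ _))).trans
    (hℓ0 ▸ hℓ)
  rw [hE1, div_le_iff₀ (by positivity)] at hℓE
  obtain ⟨ht1, ht2⟩ := time_cmp hx hL0 hl1 hl2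
  have hxc1 : x * c / L ≤ κ := by
    rw [div_le_iff₀ hκ] at hLb
    rw [div_le_iff₀ hL0]
    linarith
  have hxc2 : x * c / L ≤ 1 := by
    rw [div_le_iff₀ hL0]
    linarith
  have hpf := HP ℓ (GG θ N μ T) (ff N Λ T) hℓc hud (fun u hu _ => hfne u hu)
  -- the size
  have hsize := HN ℓ (GG θ N μ T) (ff N Λ T) hℓb hud hpf (by
    intro k hk1 hkM v hv
    have hk1' : (1 : ℝ) ≤ k := by exact_mod_cast hk1
    have hkM' : (k : ℝ) ≤ M := by exact_mod_cast hkM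
    obtain ⟨r, hr⟩ : ∃ r : ℝ, r = (k : ℝ) / (2 * M) := ⟨_, rfl⟩
    have hr0 : 0 < r := by rw [hr]; positivity
    have hr1 : r ≤ 1 / 2 := by
      rw [hr, div_le_iff₀ (by positivity)]
      linarith
    rw [← hr]
    obtain ⟨u, hu⟩ : ∃ u : ℂ, u = (r : ℂ) + v * I := ⟨_, rfl⟩
    rw [← hu]
    have hure : u.re = r := by rw [hu]; simp
    have huim : u.im = v := by rw [hu]; simp
    have hun : ‖u‖ ^ 2 ≤ 1 + R1 ^ 2 := by
      rw [Complex.sq_norm, Complex.normSq_apply, hure, huim]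
      have h1 : v * v ≤ R1 ^ 2 := by
        rw [← abs_mul_abs_self v, sq]
        exact mul_le_mul hv hv (abs_nonneg _) (by linarith)
      have h2 : r * r ≤ 1 / 2 * (1 / 2) := mul_le_mul hr1 hr1 hr0.le (by norm_num)
      linarith
    obtain ⟨hg1, hg2⟩ := hgam u (by rw [hure]; exact hr0.le)
    have h1 := hbd r hr0 hr1 (T + v) (by rw [add_sub_cancel_left]; exact hv)
    have e : (1 / 2 + ((T + v : ℝ) : ℂ) * I + r : ℂ) = 1 / 2 + T * I + u := by rw [hu]; push_cast; ring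
    rw [e] at h1
    have hφ := phi_nonneg (r := r) hx
    have hφ2 : phi x r ≤ x / 2 := by
      unfold phi
      rw [div_le_div_iff₀ (by positivity) (by norm_num)]
      have h3 : max (x - r) 0 ≤ x := max_le (by linarith) hx.le
      have h4 : 0 ≤ max (x - r) 0 := le_max_right _ _
      have h5 : max (x - r) 0 ^ 2 ≤ x ^ 2 := pow_le_pow_left₀ h4 h3 2
      linarith
    have h5 : 0 < cq N μ (T + v) := lt_of_lt_of_le (by linarith) (le_cq hN μ (T + v))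
    have h3 : ‖LL N μ Λ (1 / 2 + T * I + u)‖ ≤
        Real.exp (Real.log (cq N μ (T + v)) * (phi x r / 2 + κ')) := by
      rwa [Real.rpow_def_of_pos h5] at h1
    have h6 := ff_norm hG hg1 hg2 h3
    refine h6.trans (mul_le_mul_of_nonneg_left (Real.exp_le_exp.2 ?_) hG.le)
    rw [hure, phx_eq]
    have h7 := cq_move hN μ T v
    have h8 : (m : ℝ) * |v| ≤ m * |R1| :=
      mul_le_mul_of_nonneg_left (hv.trans (le_abs_self _)) (by linarith)
    have h9 : Real.log (cq N μ (T + v)) ≤ 2 * ℓ + (c + m * |R1|) := by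
      rw [← hL] at h7
      linarith
    have h10 : Real.log (cq N μ (T + v)) * (phi x r / 2 + κ') ≤
        (2 * ℓ + (c + m * |R1|)) * (phi x r / 2 + κ') :=
      mul_le_mul_of_nonneg_right h9 (by positivity)
    have h11 : (c + m * |R1|) * (phi x r / 2 + κ') ≤ (c + m * |R1|) * (x / 2 + κ') :=
      mul_le_mul_of_nonneg_left (by linarith) (by positivity)
    have h12 : K * (1 + ‖u‖ ^ 2) ≤ K * (2 + R1 ^ 2) := mul_le_mul_of_nonneg_left (by linarith) (by linarith)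
    have h13 : (2 * ℓ + (c + m * |R1|)) * (phi x r / 2 + κ') =
        ℓ * phi x r + 2 * κ' * ℓ + (c + m * |R1|) * (phi x r / 2 + κ') := by ring
    have h14 : 2 * κ' * ℓ = κ1 / 2 * ℓ := by rw [hκ'd]; ring
    have h15 : ℓ * (r + phi x r) = ℓ * r + ℓ * phi x r := by ring
    rw [h15]
    linarith)
  have hcnt := HS ℓ (GG θ N μ T) (x / L) (ff N Λ T) hℓa hud hsize (by positivity) (by linarith)
    (by linarith)
  rw [heat_ff] at hcnt
  -- back to the completed L-function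
  have hdb := (db_all 1 (XX N Λ) hCl hne (x / L) (by positivity)).2
  intro S hS
  have h1 := cnt_shift (F := fun u => heat (x / L) (XX N Λ) (1 / 2 + T * I + u)) (a := -(1 / 2 + T * I))
    (B := {s : ℂ | 1 / 2 + η ≤ s.re ∧ |s.im - T| ≤ R}) hcnt (by
      rintro s ⟨h2, h3⟩ h4
      have h5 : heat (x / L) (XX N Λ) s = 0 := by
        rw [← h4]
        congr 1
        ring
      have h6 := hdb.zer s h5
      have e1 : (-(1 / 2 + (T : ℂ) * I) + s).re = s.re - 1 / 2 := by simp; ring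
      have e2 : (-(1 / 2 + (T : ℂ) * I) + s).im = s.im - T := by simp; ring
      refine ⟨?_, ?_, ?_⟩
      · rw [e1]
        exact (min_le_left _ _).trans (by linarith)
      · rw [e1]
        exact le_trans (by linarith) (le_max_right R 1)
      · rw [e2]
        exact h3.trans (le_max_left _ _))
  have e : (fun z => heat (x / L) (XX N Λ) (1 / 2 + T * I + (-(1 / 2 + T * I) + z))) =
      heat (x / L) (XX N Λ) := by
    funext z
    congr 1
    ring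
  simp only [e] at h1
  refine (h1 S hS).trans ?_
  exact mul_le_mul_of_nonneg_left (by linarith) hε.le

/-- a bound near one height puts the zeros of the flow near this height on the line -/
theorem loc_line (hm : 1 ≤ m) {θ : ℝ} (hθ0 : 0 ≤ θ) (hθ : θ < 1 / 2) {μ0 x R : ℝ} (hμ0 : 0 ≤ μ0)
    (hμ1 : μ0 < 1 / 4) (hx0 : 0 < x) (hx : 1 < (2 - 4 * μ0) * x) (hR : 0 ≤ R) :
    ∃ κ2 R5 Q0 : ℝ, 0 < κ2 ∧ 0 < R5 ∧ 1 < Q0 ∧
      ∀ (N : ℝ) (μ : Fin m → ℂ) (α : Fin m → ℕ → ℂ) (ε : ℂ) (Λ : ℂ → ℂ),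
      Dat θ N μ α ε Λ → ∀ T : ℝ, Q0 ≤ cq N μ T →
      (∀ y : ℝ, |y - T| ≤ R5 → ‖LL N μ Λ (1 / 2 + y * I)‖ ≤ cq N μ y ^ (μ0 + κ2)) → ∀ s : ℂ, |s.im - T| ≤ R →
        heat (x / Real.log (cq N μ T)) (XX N Λ) s = 0 → s.re = 1 / 2 := by
  have hm' : (1 : ℝ) ≤ m := by exact_mod_cast hm
  obtain ⟨K, hK, HB⟩ := base hm hθ0 hθ
  obtain ⟨Δ, hΔd⟩ : ∃ Δ : ℝ, Δ = (1 - 2 * μ0) * x - 1 / 2 := ⟨_, rfl⟩
  have hΔ : 0 < Δ := by rw [hΔd]; nlinarith
  obtain ⟨ρ, hρd⟩ : ∃ ρ : ℝ, ρ = min 1 Δ / 16 := ⟨_, rfl⟩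
  have hρ : 0 < ρ := by rw [hρd]; have := lt_min one_pos hΔ; positivity
  have hρ1 : ρ ≤ 1 / 16 := by rw [hρd]; linarith [min_le_left 1 Δ]
  have hρΔ : ρ ≤ Δ / 16 := by rw [hρd]; linarith [min_le_right 1 Δ]
  obtain ⟨κ, R2, ℓa, hκ, HF⟩ := fwd2_all K (1 + θ) (1 / 2 + ρ) (2 * μ0) ρ (x + 1) hK (by linarith)
    (by linarith) (by linarith) (by linarith) (by linarith) (by linarith) hρ (by linarith) (by linarith)
  obtain ⟨κ', R3, ρ', ℓb, hκ', hρ'0, hρ'1, HM⟩ := maj (K1 := K) rect_all hK (by linarith)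
    (show 1 / 2 ≤ 1 + θ by linarith)
    (by linarith) (b := 1 / 2 + ρ) (M0 := 2 * μ0) (κ := κ) (by linarith) (by linarith) (by linarith)
    (by linarith) hκ (fun _ => K)
  obtain ⟨R4, ℓc, hR4, HP⟩ := prof_all K (1 + θ) (1 / 2) ρ (min κ κ') (max (max R2 R3) 1) hK (by linarith)
    (by linarith) (by norm_num) (by linarith) hρ (by linarith) (lt_min hκ hκ') (le_max_right _ _)
  obtain ⟨ε1, hε1d⟩ : ∃ ε1 : ℝ, ε1 = min (κ' / 8) (1 / 2) := ⟨_, rfl⟩
  have hε1 : 0 < ε1 := by rw [hε1d]; exact lt_min (by positivity) (by norm_num)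
  have hε1a : ε1 ≤ κ' / 8 := by rw [hε1d]; exact min_le_left _ _
  have hε1b : ε1 ≤ 1 / 2 := by rw [hε1d]; exact min_le_right _ _
  obtain ⟨c, hc⟩ : ∃ c : ℝ, c = 15 * m + m * R := ⟨_, rfl⟩
  have hc0 : 0 < c := by rw [hc]; positivity
  obtain ⟨E1, hE1⟩ : ∃ E1 : ℝ, E1 = (15 * m + m * |R3|) / (κ' / 2) := ⟨_, rfl⟩
  obtain ⟨ℓ0, hℓ0⟩ : ∃ ℓ0 : ℝ, ℓ0 = max (max ℓa ℓb) (max ℓc (max E1 1)) := ⟨_, rfl⟩
  refine ⟨ε1, R + |R3| + 1, Real.exp (max (2 * ℓ0 + c) (max (2 * x * c / Δ) (max (x * c) 1))), hε1,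
    by positivity, ?_, ?_⟩
  · apply Real.one_lt_exp_iff.2
    have := (le_max_right (x * c) 1).trans ((le_max_right (2 * x * c / Δ) _).trans
      (le_max_right (2 * ℓ0 + c) _))
    linarith
  intro N μ α ε Λ D T hT hbd s hs hz
  have hN := D.d.one_le
  obtain ⟨hCl, hne, HU⟩ := HB N μ α ε Λ D
  obtain ⟨L, hL⟩ : ∃ L : ℝ, L = Real.log (cq N μ T) := ⟨_, rfl⟩
  have hLge : max (2 * ℓ0 + c) (max (2 * x * c / Δ) (max (x * c) 1)) ≤ L := by
    have := Real.log_le_log (Real.exp_pos _) hT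
    rwa [Real.log_exp, ← hL] at this
  have hLa : 2 * ℓ0 + c ≤ L := (le_max_left _ _).trans hLge
  have hLb : 2 * x * c / Δ ≤ L := ((le_max_left _ _).trans (le_max_right _ _)).trans hLge
  have hLc : x * c ≤ L :=
    ((le_max_left _ _).trans ((le_max_right _ _).trans (le_max_right _ _))).trans hLge
  have hLd : 1 ≤ L :=
    ((le_max_right _ _).trans ((le_max_right _ _).trans (le_max_right _ _))).trans hLge
  have hL0 : 0 < L := by linarith
  rw [← hL] at hz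
  -- the height of the zero
  obtain ⟨y, hy⟩ : ∃ y : ℝ, y = s.im := ⟨_, rfl⟩
  rw [← hy] at hs
  obtain ⟨hud, hgam, hl1, hl2, -, hfne⟩ := HU y
  obtain ⟨ℓ, hℓd⟩ : ∃ ℓ : ℝ, ℓ = el N μ y := ⟨_, rfl⟩
  rw [← hℓd] at hud hgam hl1 hl2
  have hG := hud.hG
  have hmv : (m : ℝ) * |y - T| ≤ m * R := mul_le_mul_of_nonneg_left hs (by linarith)
  have h1 : L - c ≤ 2 * ℓ := by
    have h3 := cq_move' hN μ T (y - T)
    rw [add_sub_cancel, ← hL] at h3
    rw [hc]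
    linarith
  have h2 : 2 * ℓ ≤ L + c := by
    have h3 := cq_move hN μ T (y - T)
    rw [add_sub_cancel, ← hL] at h3
    rw [hc]
    linarith
  have hℓ : ℓ0 ≤ ℓ := by linarith
  have hℓa : ℓa ≤ ℓ := ((le_max_left _ _).trans (le_max_left _ _)).trans (hℓ0 ▸ hℓ)
  have hℓb : ℓb ≤ ℓ := ((le_max_right _ _).trans (le_max_left _ _)).trans (hℓ0 ▸ hℓ)
  have hℓc : ℓc ≤ ℓ := ((le_max_left _ _).trans (le_max_right _ _)).trans (hℓ0 ▸ hℓ)
  have hℓE : E1 ≤ ℓ := ((le_max_left _ _).trans ((le_max_right _ _).trans (le_max_right _ _))).trans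
    (hℓ0 ▸ hℓ)
  have hℓ1 : 1 ≤ ℓ := ((le_max_right _ _).trans ((le_max_right _ _).trans (le_max_right _ _))).trans
    (hℓ0 ▸ hℓ)
  rw [hE1, div_le_iff₀ (by positivity)] at hℓE
  obtain ⟨ht1, ht2⟩ := time_cmp hx0 hL0 h1 h2
  have hxc1 : x * c / L ≤ Δ / 2 := by
    rw [div_le_iff₀ hΔ] at hLb
    rw [div_le_iff₀ hL0]
    linarith
  have hxc2 : x * c / L ≤ 1 := by
    rw [div_le_iff₀ hL0]
    linarith
  -- the profile
  have hpf := HP ℓ (GG θ N μ y) (ff N Λ y) hℓc hud (fun u hu _ => hfne u hu)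
  have hpf1 : Pf κ (1 / 2 + ρ) R2 ℓ (GG θ N μ y) (ff N Λ y) :=
    pf_mono hpf (min_le_left _ _) ((le_max_left _ _).trans (le_max_left _ _)) (by linarith) hG.le
  have hpf2 : Pf κ' (1 / 2 + ρ) R3 ℓ (GG θ N μ y) (ff N Λ y) :=
    pf_mono hpf (min_le_right _ _) ((le_max_right _ _).trans (le_max_left _ _)) (by linarith) hG.le
  have hmaj : Mj κ (1 / 2 + ρ) (2 * μ0) ℓ (GG θ N μ y) (ff N Λ y) := by
    refine HM ℓ (GG θ N μ y) (ff N Λ y) (fun u => LL N μ Λ (1 / 2 + y * I + u))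
      (fun u => gaf N μ (1 / 2 + y * I + u)) hℓb hud hpf2 ?_ (fun u => rfl) ?_ ?_ ?_
    · have hd : Differentiable ℂ (LL N μ Λ) := by
        unfold LL
        refine hCl.slow.1.mul ?_
        have hN0 : (N : ℂ) ≠ 0 := by
          have : N ≠ 0 := by linarith
          exact_mod_cast this
        have e : (fun s : ℂ => (gaf N μ s)⁻¹) =
            fun s : ℂ => (N : ℂ) ^ (-(s / 2)) * ∏ j, (Gammaℝ (s - μ j))⁻¹ := by
          funext s
          unfold gaf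
          rw [mul_inv, Finset.prod_inv_distrib, Complex.cpow_neg]
        rw [e]
        refine Differentiable.mul (fun z => ?_) ?_
        · exact ((((hasDerivAt_id z).div_const 2).neg).const_cpow (c := (N : ℂ))
            (Or.inl hN0)).differentiableAt
        · refine Differentiable.fun_finsetProd fun j _ => ?_
          exact differentiable_Gammaℝ_inv.comp (differentiable_id.sub_const _)
      exact hd.comp (by fun_prop)
    · intro u hu
      obtain ⟨h3, -⟩ := hgam u hu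
      rw [norm_inv]
      have h4 : 0 < GG θ N μ y * Real.exp (ℓ * u.re - K * (1 + ‖u‖ ^ 2)) := by positivity
      refine (inv_anti₀ h4 h3).trans (le_of_eq ?_)
      rw [mul_inv, ← Real.exp_neg]
      congr 2
      ring
    · intro u hu
      obtain ⟨h3, h4⟩ := hgam u (by linarith)
      refine ⟨fun h0 => ?_, h4⟩
      rw [h0, norm_zero] at h3
      have h5 : 0 < GG θ N μ y * Real.exp (ℓ * u.re - K * (1 + ‖u‖ ^ 2)) := by positivity
      linarith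
    · intro v hv
      have h3 := hbd (y + v) (by
        have h31 : y + v - T = (y - T) + v := by ring
        rw [h31]
        refine (abs_add_le _ _).trans ?_
        linarith [hv.trans (le_abs_self R3)])
      have e : (1 / 2 + ((y + v : ℝ) : ℂ) * I) = 1 / 2 + y * I + (v : ℂ) * I := by push_cast; ring
      rw [e] at h3
      refine h3.trans ?_
      have h4 := cq_move hN μ y v
      have h5 : 0 < cq N μ (y + v) := lt_of_lt_of_le (by linarith) (le_cq hN μ (y + v))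
      calc cq N μ (y + v) ^ (μ0 + ε1)
          = Real.exp (Real.log (cq N μ (y + v)) * (μ0 + ε1)) := by
            rw [Real.rpow_def_of_pos h5]
        _ ≤ Real.exp (ℓ * (2 * μ0) + κ' * ℓ) := by
            apply Real.exp_le_exp.2
            have h6 : (m : ℝ) * |v| ≤ m * |R3| :=
              mul_le_mul_of_nonneg_left (hv.trans (le_abs_self _)) (by linarith)
            have h7 : Real.log (cq N μ (y + v)) ≤ 2 * ℓ + (15 * m + m * |R3|) := by linarith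
            have h8 : Real.log (cq N μ (y + v)) * (μ0 + ε1) ≤
                (2 * ℓ + (15 * m + m * |R3|)) * (μ0 + ε1) :=
              mul_le_mul_of_nonneg_right h7 (by linarith)
            have h9 : (15 * m + m * |R3|) * (μ0 + ε1) ≤ (15 * m + m * |R3|) * 1 :=
              mul_le_mul_of_nonneg_left (by linarith) (by positivity)
            have h10 : ε1 * ℓ ≤ κ' / 8 * ℓ := mul_le_mul_of_nonneg_right hε1a (by linarith)
            have h11 : 0 < κ' * ℓ := by positivity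
            linarith
  -- the zero
  have ht0 : 0 < x / L := by positivity
  have hfw := HF ℓ (GG θ N μ y) (x / L) (ff N Λ y) hℓa hud hpf1 hmaj ht0 ?_ (by linarith)
  · have hdb := (db_all 1 (XX N Λ) hCl hne (x / L) ht0.le).2
    have hre1 : s.re ≤ 3 / 2 := by
      have := hdb.zer s hz
      linarith
    have hre2 : -(1 / 2) ≤ s.re := by
      obtain ⟨w, hw1, hw2⟩ := hdb.fe
      have h3 := hw2 s
      rw [hz] at h3
      have h4 : heat (x / L) (XX N Λ) (1 - conj s) = 0 := by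
        have hw0 : w ≠ 0 := by
          intro h
          rw [h, norm_zero] at hw1
          norm_num at hw1
        have h5 := (mul_eq_zero.1 h3.symm).resolve_left hw0
        exact (map_eq_zero _).1 h5
      have h5 := hdb.zer _ h4
      simp at h5
      linarith
    by_contra hcon
    have hx' : s.re - 1 / 2 ≠ 0 := fun h => hcon (by linarith)
    refine hfw (s.re - 1 / 2) hx' (abs_le.2 ⟨by linarith, by linarith⟩) ?_
    have h3 : heat (x / L) (ff N Λ y) ((s.re - 1 / 2 : ℝ) : ℂ) =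
        heat (x / L) (XX N Λ) (1 / 2 + y * I + ((s.re - 1 / 2 : ℝ) : ℂ)) :=
      heat_shift (x / L) (XX N Λ) (1 / 2 + y * I) _
    rw [h3, ← hz]
    congr 1
    apply Complex.ext
    · simp
    · simp [hy]
  · have h3 : 2 * (1 / 2 + ρ) ^ 2 + ρ ≤ 1 / 2 + Δ / 2 := by
      have h8 : ρ * ρ ≤ 1 / 16 * ρ := mul_le_mul_of_nonneg_right hρ1 hρ.le
      have h9 : 2 * (1 / 2 + ρ) ^ 2 + ρ = 1 / 2 + 3 * ρ + 2 * (ρ * ρ) := by ring
      rw [h9]
      linarith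
    have h4 : (1 - 2 * μ0) * (2 * (x / L) * ℓ) ≤ (2 * (1 / 2 + ρ) - 2 * μ0) * (2 * (x / L) * ℓ) := by
      apply mul_le_mul_of_nonneg_right _ (by positivity)
      linarith
    have h5 : (1 - 2 * μ0) * (x - x * c / L) ≤ (1 - 2 * μ0) * (2 * (x / L) * ℓ) :=
      mul_le_mul_of_nonneg_left ht1 (by linarith)
    have h6 : (1 - 2 * μ0) * (x * c / L) ≤ 1 * (x * c / L) :=
      mul_le_mul_of_nonneg_right (by linarith) (by positivity)
    have h7 : (1 - 2 * μ0) * (x - x * c / L) = Δ + 1 / 2 - (1 - 2 * μ0) * (x * c / L) := by rw [hΔd]; ring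
    linarith

/-- the Lindelöf bound on the critical line near one height gives it on the right of the line -/
theorem loc_mid (hm : 1 ≤ m) {θ : ℝ} (hθ0 : 0 ≤ θ) (hθ : θ < 1 / 2) {κ0 : ℝ} (hκ0 : 0 < κ0) :
    ∃ κ2 R5 Q0 : ℝ, 0 < κ2 ∧ 0 < R5 ∧ 1 < Q0 ∧
      ∀ (N : ℝ) (μ : Fin m → ℂ) (α : Fin m → ℕ → ℂ) (ε : ℂ) (Λ : ℂ → ℂ),
      Dat θ N μ α ε Λ → ∀ y : ℝ, Q0 ≤ cq N μ y →
      (∀ t : ℝ, |t - y| ≤ R5 → ‖LL N μ Λ (1 / 2 + t * I)‖ ≤ cq N μ t ^ κ2) →
      ∀ r : ℝ, 0 ≤ r → r ≤ 1 / 2 → ‖LL N μ Λ (1 / 2 + y * I + r)‖ ≤ cq N μ y ^ κ0 := by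
  have hm' : (1 : ℝ) ≤ m := by exact_mod_cast hm
  obtain ⟨K, hK, HB⟩ := base hm hθ0 hθ
  obtain ⟨κ', R3, ρ', ℓb, hκ', hρ'0, hρ'1, HM⟩ := maj (K1 := K) rect_all hK (by linarith)
    (show 1 / 2 ≤ 1 + θ by linarith)
    (by linarith) (b := 1) (M0 := 0) (κ := κ0) (by norm_num) (by norm_num) le_rfl
    (by norm_num) hκ0 (fun _ => K)
  obtain ⟨R4, ℓc, hR4, HP⟩ := prof_all K (1 + θ) (1 / 2) (1 / 2) κ' (max R3 1) hK (by linarith)
    (by linarith) (by norm_num) (by linarith) (by norm_num) (by norm_num) hκ' (le_max_right _ _)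
  obtain ⟨ε1, hε1d⟩ : ∃ ε1 : ℝ, ε1 = min (κ' / 8) (1 / 2) := ⟨_, rfl⟩
  have hε1 : 0 < ε1 := by rw [hε1d]; exact lt_min (by positivity) (by norm_num)
  have hε1a : ε1 ≤ κ' / 8 := by rw [hε1d]; exact min_le_left _ _
  have hε1b : ε1 ≤ 1 / 2 := by rw [hε1d]; exact min_le_right _ _
  obtain ⟨c, hc⟩ : ∃ c : ℝ, c = 15 * (m : ℝ) := ⟨_, rfl⟩
  have hc0 : 0 < c := by rw [hc]; positivity
  obtain ⟨E1, hE1⟩ : ∃ E1 : ℝ, E1 = (c + m * |R3|) / (κ' / 2) := ⟨_, rfl⟩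
  obtain ⟨ℓ0, hℓ0⟩ : ∃ ℓ0 : ℝ, ℓ0 = max ℓb (max ℓc (max E1 1)) := ⟨_, rfl⟩
  have hℓ01 : 1 ≤ ℓ0 := by
    rw [hℓ0]
    exact (le_max_right _ _).trans ((le_max_right _ _).trans (le_max_right _ _))
  refine ⟨ε1, |R3| + 1, Real.exp (max (2 * ℓ0 + c) (2 * (κ0 * c + 4 * K) / κ0)), hε1, by positivity,
    Real.one_lt_exp_iff.2 (lt_of_lt_of_le (by linarith) (le_max_left _ _)), ?_⟩
  intro N μ α ε Λ D y hy hbd r hr0 hr1
  have hN := D.d.one_le
  obtain ⟨hCl, hne, HU⟩ := HB N μ α ε Λ D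
  obtain ⟨hud, hgam, hl1, hl2, hc1, hfne⟩ := HU y
  obtain ⟨ℓ, hℓd⟩ : ∃ ℓ : ℝ, ℓ = el N μ y := ⟨_, rfl⟩
  rw [← hℓd] at hud hgam hl1 hl2
  have hG := hud.hG
  obtain ⟨L, hL⟩ : ∃ L : ℝ, L = Real.log (cq N μ y) := ⟨_, rfl⟩
  have hcnd0 : 0 < cq N μ y := by linarith
  have hLnn : 0 ≤ L := by rw [hL]; exact Real.log_nonneg hc1
  have hLge : max (2 * ℓ0 + c) (2 * (κ0 * c + 4 * K) / κ0) ≤ L := by
    have := Real.log_le_log (Real.exp_pos _) hy
    rwa [Real.log_exp, ← hL] at this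
  have hLa : 2 * ℓ0 + c ≤ L := (le_max_left _ _).trans hLge
  have hLb : 2 * (κ0 * c + 4 * K) / κ0 ≤ L := (le_max_right _ _).trans hLge
  rw [div_le_iff₀ hκ0] at hLb
  have hpow : cq N μ y ^ κ0 = Real.exp (L * κ0) := by
    rw [Real.rpow_def_of_pos hcnd0, ← hL]
  rw [hpow]
  rw [← hL, ← hc] at hl1 hl2
  have hrn : ‖(r : ℂ)‖ ^ 2 ≤ 1 := by
    rw [Complex.norm_real, Real.norm_eq_abs, sq_abs]
    nlinarith
  have hrre : ((r : ℂ)).re = r := Complex.ofReal_re r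
  have hKr : K * (1 + ‖(r : ℂ)‖ ^ 2) ≤ 2 * K := by nlinarith
  obtain ⟨hg1, -⟩ := hgam r (by rw [hrre]; exact hr0)
  have hℓ : ℓ0 ≤ ℓ := by linarith
  · have hℓb : ℓb ≤ ℓ := (le_max_left _ _).trans (hℓ0 ▸ hℓ)
    have hℓc : ℓc ≤ ℓ := ((le_max_left _ _).trans (le_max_right _ _)).trans (hℓ0 ▸ hℓ)
    have hℓE : E1 ≤ ℓ := ((le_max_left _ _).trans ((le_max_right _ _).trans (le_max_right _ _))).trans
      (hℓ0 ▸ hℓ)
    have hℓ1 : 1 ≤ ℓ := by linarith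
    rw [hE1, div_le_iff₀ (by positivity)] at hℓE
    have hpf := HP ℓ (GG θ N μ y) (ff N Λ y) hℓc hud (fun u hu _ => hfne u hu)
    have e12 : (1 / 2 + 1 / 2 : ℝ) = 1 := by norm_num
    rw [e12] at hpf
    have hpf2 : Pf κ' 1 R3 ℓ (GG θ N μ y) (ff N Λ y) :=
      pf_mono hpf le_rfl (le_max_left _ _) (by linarith) hG.le
    have hmaj : Mj κ0 1 0 ℓ (GG θ N μ y) (ff N Λ y) := by
      refine HM ℓ (GG θ N μ y) (ff N Λ y) (fun u => LL N μ Λ (1 / 2 + y * I + u))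
        (fun u => gaf N μ (1 / 2 + y * I + u)) hℓb hud hpf2 ?_ (fun u => rfl) ?_ ?_ ?_
      · exact (LL_diff hN hCl.slow.1).comp (by fun_prop)
      · intro u hu
        obtain ⟨h3, -⟩ := hgam u hu
        rw [norm_inv]
        have h4 : 0 < GG θ N μ y * Real.exp (ℓ * u.re - K * (1 + ‖u‖ ^ 2)) := by positivity
        refine (inv_anti₀ h4 h3).trans (le_of_eq ?_)
        rw [mul_inv, ← Real.exp_neg]
        congr 2
        ring
      · intro u hu
        obtain ⟨h3, h4⟩ := hgam u (by linarith)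
        refine ⟨fun h0 => ?_, h4⟩
        rw [h0, norm_zero] at h3
        have h5 : 0 < GG θ N μ y * Real.exp (ℓ * u.re - K * (1 + ‖u‖ ^ 2)) := by positivity
        linarith
      · intro v hv
        have h3 := hbd (y + v) (by
          rw [add_sub_cancel_left]
          linarith [hv.trans (le_abs_self R3)])
        have e : (1 / 2 + ((y + v : ℝ) : ℂ) * I) = 1 / 2 + y * I + (v : ℂ) * I := by push_cast; ring
        rw [e] at h3
        refine h3.trans ?_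
        have h4 := cq_move hN μ y v
        have h5 : 0 < cq N μ (y + v) := lt_of_lt_of_le (by linarith) (le_cq hN μ (y + v))
        calc cq N μ (y + v) ^ ε1
            = Real.exp (Real.log (cq N μ (y + v)) * ε1) := by
              rw [Real.rpow_def_of_pos h5]
          _ ≤ Real.exp (ℓ * 0 + κ' * ℓ) := by
              apply Real.exp_le_exp.2
              have h6 : (m : ℝ) * |v| ≤ m * |R3| :=
                mul_le_mul_of_nonneg_left (hv.trans (le_abs_self _)) (by linarith)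
              rw [← hL] at h4
              have h7 : Real.log (cq N μ (y + v)) ≤ 2 * ℓ + (c + m * |R3|) := by linarith
              have h8 : Real.log (cq N μ (y + v)) * ε1 ≤ (2 * ℓ + (c + m * |R3|)) * ε1 :=
                mul_le_mul_of_nonneg_right h7 (by linarith)
              have h9 : (c + m * |R3|) * ε1 ≤ (c + m * |R3|) * 1 :=
                mul_le_mul_of_nonneg_left (by linarith) (by positivity)
              have h10 : ε1 * ℓ ≤ κ' / 8 * ℓ := mul_le_mul_of_nonneg_right hε1a (by linarith)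
              have h11 : 0 < κ' * ℓ := by positivity
              linarith
    have h1 := hmaj r hr0 (by linarith)
    have hLLn := LL_norm hG hg1 h1
    refine hLLn.trans (Real.exp_le_exp.2 ?_)
    rw [hrre]
    have h2 : κ0 * ℓ ≤ κ0 * ((L + c) / 2) := mul_le_mul_of_nonneg_left (by linarith) hκ0.le
    have h3 : 0 ≤ κ0 * L := by positivity
    have h4 : 0 ≤ κ0 * c := by positivity
    have h5 : ℓ * (0 + (1 - 0 / 1) * r) = ℓ * r := by ring
    rw [h5]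
    nlinarith

end Pool.Agent.V7H89.CH
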